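import Pool.Agent.Helper74.DG2.Defs
import Pool.Agent.Helper65.DG.Grid

/-!
# Dark islands: positions of the vertices of the frame
-/

set_option autoImplicit false

namespace Pool.Agent.Helper74.DG2

open Pool.Agent.Helper18.RAC
open Pool.Agent.Helper82.DG (NE SE NW SW Rect axis_x axis_y ne_sw sw_sw chain_mono negX_draw
  lines_cross quad_NE quad_SE quad_SW quad_NW common_NE)

variable {V : Type*} {H : SimpleGraph V} {X Y : V → ℝ} {E F a b : ℝ} {κ : GX → V} {M : ℕ}
  {c r i j : ℕ} {v p p' q : V}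

namespace GDraw

/-! ### adjacencies -/

theorem adj_up0 (h : GDraw H X Y E F a b κ M) (hc : c < M) :
    H.Adj (κ (.v (.P false (2 * c)))) (κ (.v (.U false c))) :=
  (h.hg.adj (.up false c) hc).symm

theorem adj_up1 (h : GDraw H X Y E F a b κ M) (hc : c < M) :
    H.Adj (κ (.v (.P true (2 * c)))) (κ (.v (.U true c))) :=
  (h.hg.adj (.up true c) hc).symm

theorem adj_pd0 (h : GDraw H X Y E F a b κ M) (hc : c < M) :
    H.Adj (κ (.v (.P false (2 * c + 1)))) (κ (.v (.D c 0))) :=
  h.hg.adj (.pd false c) hc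

theorem adj_pd1 (h : GDraw H X Y E F a b κ M) (hc : c < M) :
    H.Adj (κ (.v (.P true (2 * c + 1)))) (κ (.v (.D 0 c))) :=
  h.hg.adj (.pd true c) hc

theorem adj_dr (h : GDraw H X Y E F a b κ M) (hc : c + 1 < M) :
    H.Adj (κ (.v (.D c 0))) (κ (.v (.D (c + 1) 0))) :=
  h.hg.adj (.dd false c) hc

theorem adj_dc (h : GDraw H X Y E F a b κ M) (hr : r + 1 < M) :
    H.Adj (κ (.v (.D 0 r))) (κ (.v (.D 0 (r + 1)))) :=
  h.hg.adj (.dd true r) hr

theorem okP (σ : Bool) (hj : j < 2 * M) : (GN.P σ j).ok M := hj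

theorem okD (hc : c < M) (hr : r < M) (h0 : c = 0 ∨ r = 0) : (GN.D c r).ok M := ⟨hc, hr, h0⟩

theorem D_ne_P (h : GDraw H X Y E F a b κ M) (σ : Bool) (hc : c < M)
    (hj : j < 2 * M) : κ (.v (.D c 0)) ≠ κ (.v (.P σ j)) := by
  intro he
  have := h.hg.inj _ _ (okD hc (by omega) (Or.inr rfl)) (okP σ hj) he
  cases this

/-! ### The first row -/

theorem row_NE (h : GDraw H X Y E F a b κ M) (h0 : NE X Y (κ (.v (.D 0 0)))) :
    ∀ c, c < M → NE X Y (κ (.v (.D c 0))) := by
  intro c
  induction c with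
  | zero =>
    intro _
    exact h0
  | succ c ih =>
    intro hc
    have hM := h.hg.hM
    have ih' := ih (by omega)
    have hu := h.hg.nX (.D (c + 1) 0) true (okD hc (by omega) (Or.inr rfl))
    have hw := h.hg.nX (.D (c + 1) 0) false (okD hc (by omega) (Or.inr rfl))
    have hw' := h.hg.nY (.D (c + 1) 0) false (okD hc (by omega) (Or.inr rfl))
    have ad := h.adj_dr (c := c) hc
    rcases quad_NE h.hd h.hk ad ih' with e | e | ⟨e1, e2⟩ | ⟨e1, e2⟩ | ⟨e1, e2⟩
    · exact absurd e hu
    · exact absurd e hw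
    · rcases quad_SE h.hd h.hk h.hs (h.adj_pd0 hc) (h.hP0 _ (by omega)) with
        f | f | ⟨f1, f2⟩ | ⟨f1, f2⟩ | ⟨f1, f2⟩
      · exact absurd f hu
      · exact absurd f hw'
      · linarith
      · exact f2
      · linarith [f2.1]
    · -- straight below `D c 0`
      exfalso
      have hP := h.hP0 (2 * c + 1) (by omega)
      have hX : X (κ (.v (.D c 0))) = X (κ (.v (.P false (2 * c + 1)))) := by
        rcases quad_SE h.hd h.hk h.hs (h.adj_pd0 (c := c) (by omega)) hP with
          f | f | ⟨f1, f2⟩ | ⟨f1, f2⟩ | ⟨f1, f2⟩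
        · exact absurd f (h.hg.nX (.D c 0) true (okD (by omega) (by omega) (Or.inr rfl)))
        · exact absurd f (h.hg.nY (.D c 0) false (okD (by omega) (by omega) (Or.inr rfl)))
        · linarith [ih'.2.1]
        · exact f1
        · linarith [f2.1, ih'.1]
      have := axis_y h.hd ad (h.adj_pd0 (c := c) (by omega)).symm e1 hX.symm
        (Or.inr ⟨by linarith [e2.2.1, ih'.2.1], by linarith [hP.2.1, ih'.2.1]⟩)
      exact h.D_ne_P false hc (by omega) this
    · exfalso
      rcases quad_SE h.hd h.hk h.hs (h.adj_pd0 hc) (h.hP0 _ (by omega)) with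
        f | f | ⟨f1, f2⟩ | ⟨f1, f2⟩ | ⟨f1, f2⟩
      · exact absurd f hu
      · exact absurd f hw'
      · linarith [e2.1]
      · linarith [f2.1, e2.2.1]
      · linarith [f2.2.1, e2.1]

theorem row_SW (h : GDraw H X Y E F a b κ M) (h0 : SW X Y a b (κ (.v (.D 0 0)))) :
    ∀ c, c < M → SW X Y a b (κ (.v (.D c 0))) := by
  intro c
  induction c with
  | zero =>
    intro _
    exact h0
  | succ c ih =>
    intro hc
    have hM := h.hg.hM
    have ih' := ih (by omega)
    have hu := h.hg.nX (.D (c + 1) 0) true (okD hc (by omega) (Or.inr rfl))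
    have hu' := h.hg.nY (.D (c + 1) 0) true (okD hc (by omega) (Or.inr rfl))
    have hw' := h.hg.nY (.D (c + 1) 0) false (okD hc (by omega) (Or.inr rfl))
    have ad := h.adj_dr (c := c) hc
    rcases quad_SW h.hd h.hk h.hs ad ih' with e | e | ⟨e1, e2⟩ | ⟨e1, e2⟩ | ⟨e1, e2⟩
    · exact absurd e hu'
    · exact absurd e hw'
    · rcases quad_SE h.hd h.hk h.hs (h.adj_pd0 hc) (h.hP0 _ (by omega)) with
        f | f | ⟨f1, f2⟩ | ⟨f1, f2⟩ | ⟨f1, f2⟩
      · exact absurd f hu
      · exact absurd f hw'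
      · linarith
      · linarith [f2.1]
      · exact f2
    · exfalso
      rcases quad_SE h.hd h.hk h.hs (h.adj_pd0 hc) (h.hP0 _ (by omega)) with
        f | f | ⟨f1, f2⟩ | ⟨f1, f2⟩ | ⟨f1, f2⟩
      · exact absurd f hu
      · exact absurd f hw'
      · linarith [e2.1]
      · linarith [f2.1, e2.2.1]
      · linarith [f2.2.1, e2.1]
    · -- straight to the right of `D c 0`
      exfalso
      have hP := h.hP0 (2 * c + 1) (by omega)
      have hY : Y (κ (.v (.D c 0))) = Y (κ (.v (.P false (2 * c + 1)))) := by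
        rcases quad_SE h.hd h.hk h.hs (h.adj_pd0 (c := c) (by omega)) hP with
          f | f | ⟨f1, f2⟩ | ⟨f1, f2⟩ | ⟨f1, f2⟩
        · exact absurd f (h.hg.nX (.D c 0) true (okD (by omega) (by omega) (Or.inr rfl)))
        · exact absurd f (h.hg.nY (.D c 0) false (okD (by omega) (by omega) (Or.inr rfl)))
        · linarith [ih'.1]
        · linarith [f2.1, ih'.1]
        · exact f1
      have := axis_x h.hd ad (h.adj_pd0 (c := c) (by omega)).symm e1 hY.symm
        (Or.inl ⟨by linarith [e2.1, ih'.1], by linarith [hP.1, ih'.1]⟩)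
      exact h.D_ne_P false hc (by omega) this

theorem D_NE0 (h : GDraw H X Y E F a b κ M) : NE X Y (κ (.v (.D 0 0))) := by
  have hM := h.hg.hM
  have hu := h.hg.nX (.D 0 0) true (okD (by omega) (by omega) (Or.inr rfl))
  have hu' := h.hg.nY (.D 0 0) true (okD (by omega) (by omega) (Or.inr rfl))
  have hw := h.hg.nX (.D 0 0) false (okD (by omega) (by omega) (Or.inr rfl))
  have hw' := h.hg.nY (.D 0 0) false (okD (by omega) (by omega) (Or.inr rfl))
  rcases quad_SE h.hd h.hk h.hs (h.adj_pd0 (c := 0) (by omega)) (h.hP0 _ (by omega)) with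
    f | f | ⟨f1, f2⟩ | ⟨f1, f2⟩ | ⟨f1, f2⟩
  · exact absurd f hu
  · exact absurd f hw'
  · exfalso
    rcases quad_NW h.hd h.hk h.hs (h.adj_pd1 (c := 0) (by omega)) (h.hP1 _ (by omega)) with
      e | e | ⟨e1, e2⟩ | ⟨e1, e2⟩ | ⟨e1, e2⟩
    · exact hw e
    · exact hu' e
    · linarith
    · linarith [e2.2.1]
    · linarith [e2.1]
  · exact f2
  · exfalso
    have h1 := h.row_SW f2 (M - 1) (by omega)
    have h2 : NE X Y (κ (.v (.D (M - 1) 0))) := by
      have hne : κ (.v (.U true 0)) ≠ κ (.v (.U true 1)) := by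
        intro he
        have := h.hg.inj (.U true 0) (.U true 1) (show 0 < M by omega) (show 1 < M by omega) he
        injection this with _ h3
        omega
      rcases common_NE h.hd h.hk h.hs (h.hU true 0 (by omega)) (h.hU true 1 (by omega)) hne
        (h.hg.adj (.dr false false) trivial) (h.hg.adj (.dr false true) trivial) with e | e | e
      · exact absurd e (h.hg.nX (.D (M - 1) 0) true (okD (by omega) (by omega) (Or.inr rfl)))
      · exact absurd e (h.hg.nX (.D (M - 1) 0) false (okD (by omega) (by omega) (Or.inr rfl)))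
      · exact e
    linarith [h1.1, h2.1]

/-- the dark vertices of the frame lie in the cell `NE` -/
theorem D_NE (h : GDraw H X Y E F a b κ M) (hc : c < M) (hr : r < M) (h0 : c = 0 ∨ r = 0) :
    NE X Y (κ (.v (.D c r))) := by
  rcases h0 with rfl | rfl
  · exact ne_sw (h.swap.row_NE (ne_sw h.D_NE0) r hr)
  · exact h.row_NE h.D_NE0 c hc

theorem X_U (h : GDraw H X Y E F a b κ M) (hc : c < M) :
    X (κ (.v (.U false c))) = X (κ (.v (.P false (2 * c)))) := by
  have hU := h.hU false c hc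
  rcases quad_SE h.hd h.hk h.hs (h.adj_up0 hc) (h.hP0 _ (by omega)) with
    f | f | ⟨f1, f2⟩ | ⟨f1, f2⟩ | ⟨f1, f2⟩
  · exact absurd f (h.hg.nX (.U false c) true hc)
  · exact absurd f (h.hg.nY (.U false c) false hc)
  · linarith [hU.2.1]
  · exact f1
  · linarith [f2.1, hU.1]

theorem Y_U (h : GDraw H X Y E F a b κ M) (hc : c < M) :
    Y (κ (.v (.U true c))) = Y (κ (.v (.P true (2 * c)))) := h.swap.X_U hc

theorem X_D0 (h : GDraw H X Y E F a b κ M) (hc : c < M) :
    X (κ (.v (.D c 0))) = X (κ (.v (.P false (2 * c + 1)))) := by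
  have hM := h.hg.hM
  have hD := h.D_NE (c := c) (r := 0) hc (by omega) (Or.inr rfl)
  rcases quad_SE h.hd h.hk h.hs (h.adj_pd0 hc) (h.hP0 _ (by omega)) with
    f | f | ⟨f1, f2⟩ | ⟨f1, f2⟩ | ⟨f1, f2⟩
  · exact absurd f (h.hg.nX (.D c 0) true (okD hc (by omega) (Or.inr rfl)))
  · exact absurd f (h.hg.nY (.D c 0) false (okD hc (by omega) (Or.inr rfl)))
  · linarith [hD.2.1]
  · exact f1
  · linarith [f2.1, hD.1]

theorem Y_D0 (h : GDraw H X Y E F a b κ M) (hr : r < M) :
    Y (κ (.v (.D 0 r))) = Y (κ (.v (.P true (2 * r + 1)))) := h.swap.X_D0 hr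

theorem X_step (h : GDraw H X Y E F a b κ M) (hj : j + 1 < 2 * M) :
    X (κ (.v (.P false j))) < X (κ (.v (.P false (j + 1)))) := by
  classical
  have hM := h.hg.hM
  have hb := h.hk.b_pos
  refine chain_mono (negX_draw h.hd.swap).swap (w := κ (.Y false)) (u := κ (.X true)) (h := b)
    (e := 1) (n := 2 * M) (P := fun j => κ (.v (.P false j)))
    (P' := fun j => if j % 2 = 0 then κ (.v (.U false (j / 2))) else κ (.v (.D (j / 2) 0)))
    (C := fun j ε => κ (.v (.C false j ε))) h.hk.Xw' ?_ h.hk.Xu ?_ ?_ ?_ ?_ ?_ ?_ ?_ ?_ ?_ ?_ ?_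
    ?_ ?_ j hj
  · change -Y _ = b
    rw [h.hk.Yw']
    ring
  · change -Y _ = 0
    rw [h.hk.Yu]
    ring
  · intro j hj
    obtain ⟨h1, h2, h3⟩ := h.hP0 j hj
    refine ⟨h1, ?_, ?_, ?_⟩
    · by_contra h4
      rw [not_lt] at h4
      nlinarith
    · change 0 < -Y _
      linarith
    · change -Y _ < b
      nlinarith
  · intro j ε hj
    obtain ⟨h1, h2, h3⟩ := h.hC0 j ε hj
    refine ⟨h1, ?_, ?_⟩
    · change 0 < -Y _
      linarith
    · change -Y _ < b
      nlinarith
  · intro j hj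
    by_cases he : j % 2 = 0
    · obtain ⟨c, rfl⟩ : ∃ c, j = 2 * c := ⟨j / 2, by omega⟩
      have hcM : c < M := by omega
      have e1 : 2 * c / 2 = c := by omega
      simp only [if_pos he, e1]
      have hU := h.hU false c hcM
      exact ⟨h.X_U hcM, by linarith [hU.2.1]⟩
    · obtain ⟨c, rfl⟩ : ∃ c, j = 2 * c + 1 := ⟨j / 2, by omega⟩
      have hcM : c < M := by omega
      have e1 : (2 * c + 1) / 2 = c := by omega
      simp only [if_neg he, e1]
      have hD := h.D_NE (c := c) (r := 0) hcM (by omega) (Or.inr rfl)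
      exact ⟨h.X_D0 hcM, by linarith [hD.2.1]⟩
  · intro j hj
    exact h.hg.adj (.yp false j) hj
  · intro j hj
    by_cases he : j % 2 = 0
    · obtain ⟨c, rfl⟩ : ∃ c, j = 2 * c := ⟨j / 2, by omega⟩
      have e1 : 2 * c / 2 = c := by omega
      simp only [if_pos he, e1]
      exact h.adj_up0 (by omega)
    · obtain ⟨c, rfl⟩ : ∃ c, j = 2 * c + 1 := ⟨j / 2, by omega⟩
      have e1 : (2 * c + 1) / 2 = c := by omega
      simp only [if_neg he, e1]
      exact h.adj_pd0 (by omega)
  · intro j hj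
    exact h.hg.adj (.pp false j) hj
  · intro j ε hj
    exact h.hg.adj (.pc false j ε) hj
  · intro j ε hj
    exact h.hg.adj (.pc' false j ε) hj
  · intro j hj
    exact h.hg.adj (.cc false j) hj
  · exact h.hg.adj (.xp false) trivial
  · intro i hi j hj he
    have := h.hg.inj _ _ (okP false hi) (okP false hj) he
    injection this
  · intro j ε m hj hm he
    have := h.hg.inj (.C false j ε) (.P false m) hj hm he
    cases this

theorem X_lt (h : GDraw H X Y E F a b κ M) (hij : i < j) (hj : j < 2 * M) :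
    X (κ (.v (.P false i))) < X (κ (.v (.P false j))) := by
  induction j with
  | zero => omega
  | succ j ih =>
    have h1 := h.X_step hj
    rcases Nat.lt_or_ge i j with h2 | h2
    · exact (ih h2 (by omega)).trans h1
    · have : i = j := by omega
      rw [this]
      exact h1

theorem Y_lt (h : GDraw H X Y E F a b κ M) (hij : i < j) (hj : j < 2 * M) :
    Y (κ (.v (.P true i))) < Y (κ (.v (.P true j))) := h.swap.X_lt hij hj

/-- the long edges cross -/
theorem cross (h : GDraw H X Y E F a b κ M) (hc : c < M) (hr : r < M) :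
    X (κ (.v (.U false c))) < X (κ (.v (.U true r))) ∧
      Y (κ (.v (.U true r))) < Y (κ (.v (.U false c))) := by
  obtain ⟨h1, h2, h3⟩ := h.hU false c hc
  obtain ⟨g1, g2, g3⟩ := h.hU true r hr
  have hB := h.hP0 (2 * c) (by omega)
  have hL := h.hP1 (2 * r) (by omega)
  refine lines_cross h.hd (w := κ (.X false)) (u := κ (.X true)) (h := 1) (e := 1)
    (B := κ (.v (.P false (2 * c)))) (L := κ (.v (.P true (2 * r)))) h.hk.Xw h.hk.Yw h.hk.Xu
    h.hk.Yu ⟨h1, by linarith, h2, by linarith⟩ ⟨g1, by linarith, g2, by linarith⟩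
    ⟨(h.X_U hc).symm, hB.2.1⟩ ⟨(h.Y_U hr).symm, hL.2.1⟩ (h.hg.adj (.xu false c) hc)
    (h.adj_up0 hc).symm (h.hg.adj (.xu true r) hr) (h.adj_up1 hr).symm ?_
  intro he
  have := h.hg.inj (.U false c) (.U true r) hc hr he
  cases this

theorem rect (h : GDraw H X Y E F a b κ M) (hc : c + 1 < M) (hr : r + 1 < M) :
    Rect H X Y (X (κ (.v (.P false (2 * c))))) (X (κ (.v (.P false (2 * c + 2)))))
      (Y (κ (.v (.P true (2 * r))))) (Y (κ (.v (.P true (2 * r + 2))))) where
  hx := h.X_lt (by omega) (by omega)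
  hy := h.Y_lt (by omega) (by omega)
  l := by
    have h1 := h.hP0 (2 * c) (by omega)
    have h2 := h.hP1 (2 * r) (by omega)
    refine ⟨_, _, h.adj_up0 (c := c) (by omega), rfl, h.X_U (by omega), by linarith [h1.2.1, h2.1],
      ?_⟩
    have h3 := h.Y_U (c := r + 1) hr
    have h4 := (h.cross (c := c) (r := r + 1) (by omega) hr).2
    rw [h3] at h4
    exact h4
  r := by
    have h1 := h.hP0 (2 * (c + 1)) (by omega)
    have h2 := h.hP1 (2 * r) (by omega)
    refine ⟨_, _, h.adj_up0 (c := c + 1) hc, rfl, h.X_U hc, by linarith [h1.2.1, h2.1], ?_⟩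
    have h3 := h.Y_U (c := r + 1) hr
    have h4 := (h.cross (c := c + 1) (r := r + 1) hc hr).2
    rw [h3] at h4
    exact h4
  b := by
    have h1 := h.hP1 (2 * r) (by omega)
    have h2 := h.hP0 (2 * c) (by omega)
    refine ⟨_, _, h.adj_up1 (c := r) (by omega), rfl, h.Y_U (by omega),
      by linarith [h1.2.1, h2.1], ?_⟩
    have h3 := h.X_U (c := c + 1) hc
    have h4 := (h.cross (c := c + 1) (r := r) hc (by omega)).1
    rw [h3] at h4
    exact h4
  t := by
    have h1 := h.hP1 (2 * (r + 1)) (by omega)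
    have h2 := h.hP0 (2 * c) (by omega)
    refine ⟨_, _, h.adj_up1 (c := r + 1) hr, rfl, h.Y_U hr, by linarith [h1.2.1, h2.1], ?_⟩
    have h3 := h.X_U (c := c + 1) hc
    have h4 := (h.cross (c := c + 1) (r := r + 1) hc hr).1
    rw [h3] at h4
    exact h4

/-- an edge from a point at the centre of a rectangle -/
theorem step (h : GDraw H X Y E F a b κ M) (hc : c + 1 < M) (hr : r + 1 < M)
    (hp : H.Adj p p') (hX : X p = X (κ (.v (.P false (2 * c + 1)))))
    (hY : Y p = Y (κ (.v (.P true (2 * r + 1))))) :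
    (X (κ (.v (.P false (2 * c)))) < X p' ∧ X p' < X (κ (.v (.P false (2 * c + 2)))) ∧
      Y (κ (.v (.P true (2 * r)))) < Y p' ∧ Y p' < Y (κ (.v (.P true (2 * r + 2))))) ∨
    X p' = X (κ (.v (.P false (2 * c + 1)))) ∨ Y p' = Y (κ (.v (.P true (2 * r + 1)))) := by
  have h1 := h.X_lt (i := 2 * c) (j := 2 * c + 1) (by omega) (by omega)
  have h2 := h.X_lt (i := 2 * c + 1) (j := 2 * c + 2) (by omega) (by omega)
  have h3 := h.Y_lt (i := 2 * r) (j := 2 * r + 1) (by omega) (by omega)
  have h4 := h.Y_lt (i := 2 * r + 1) (j := 2 * r + 2) (by omega) (by omega)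
  have := (h.rect hc hr).through h.hd hp (s := 0) le_rfl zero_le_one (by
      rw [hX]
      linarith) (by
      rw [hX]
      linarith) (by
      rw [hY]
      linarith) (by
      rw [hY]
      linarith)
  rw [hX, hY] at this
  exact this

theorem pos_row_aux (h : GDraw H X Y E F a b κ M) :
    ∀ c, c < M → Y (κ (.v (.D c 0))) = Y (κ (.v (.P true 1))) := by
  have hM := h.hg.hM
  intro c
  induction c with
  | zero =>
    intro _
    exact h.Y_D0 (r := 0) (by omega)
  | succ c ih =>
    intro hc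
    have ih' := ih (by omega)
    rcases h.step (c := c) (r := 0) hc (by omega) (h.adj_dr (c := c) hc) (h.X_D0 (by omega))
      ih' with e | e | e
    · exfalso
      have h1 := h.X_D0 (c := c + 1) (by omega)
      have h2 := h.X_lt (i := 2 * c + 2) (j := 2 * (c + 1) + 1) (by omega) (by omega)
      linarith [e.2.1]
    · exfalso
      have h1 := h.X_D0 (c := c + 1) (by omega)
      have h2 := h.X_lt (i := 2 * c + 1) (j := 2 * (c + 1) + 1) (by omega) (by omega)
      linarith
    · exact e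

theorem pos_row (h : GDraw H X Y E F a b κ M) (hc : c < M) :
    Y (κ (.v (.D c 0))) = Y (κ (.v (.P true 1))) := h.pos_row_aux c hc

theorem pos_col (h : GDraw H X Y E F a b κ M) (hr : r < M) :
    X (κ (.v (.D 0 r))) = X (κ (.v (.P false 1))) := h.swap.pos_row_aux r hr

/-- the rectangles lie in the cell `NE` -/
theorem inR_NE (h : GDraw H X Y E F a b κ M) (hc : c + 1 < M) (hr : r + 1 < M) {x y : ℝ}
    (hin : InR X Y κ c r x y) : 0 < x ∧ 0 < y ∧ x + y < 1 := by
  obtain ⟨h1, h2, h3, h4⟩ := hin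
  have hB := h.hP0 (2 * c) (by omega)
  have hL := h.hP1 (2 * r) (by omega)
  have hx := h.X_U (c := c + 1) hc
  have hy := h.Y_U (c := r + 1) hr
  have hcr := (h.cross (c := c + 1) (r := r + 1) hc hr).2
  have hU := (h.hU false (c + 1) hc).2.2
  change _ = X (κ (.v (.P false (2 * c + 2)))) at hx
  change _ = Y (κ (.v (.P true (2 * r + 2)))) at hy
  exact ⟨by linarith [hB.1], by linarith [hL.1], by linarith⟩

end GDraw

end Pool.Agent.Helper74.DG2
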