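import Pool.Agent.Helper84.DG2.Cross
import Pool.Agent.Helper18.DG2.Grid

/-!
# Dark islands: the lines of the frame as broken lines, sides of rectangles
-/

set_option autoImplicit false

namespace Pool.Agent.Helper74.DG2

open Pool.Agent.Helper18.RAC
open Pool.Agent.Helper82.DG (NE SE NW SW Rect quad_NE quad_SE quad_NW common_NE)

variable {V : Type*} {H : SimpleGraph V} {X Y : V → ℝ} {E F a b : ℝ} {κ : GX → V} {M : ℕ}
  {c r i j k m : ℕ} {v p p' q l l' : V}

theorem inK_of_NE (ha : 0 < a) (hb : 0 < b) (hv : NE X Y v) : InK X Y a b v := by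
  obtain ⟨h1, h2, h3⟩ := hv
  have e1 : b * X v < b := by nlinarith
  have e2 : a * Y v < a := by nlinarith
  have e3 : 0 < a * b := mul_pos ha hb
  have e4 : 0 < b * X v := mul_pos hb h1
  have e5 : 0 < a * Y v := mul_pos ha h2
  exact ⟨h3, by linarith, by linarith, by linarith⟩

theorem inK_of_SE (ha : 0 < a) (hb : 0 < b) (hv : SE X Y b v) : InK X Y a b v := by
  obtain ⟨h1, h2, h3⟩ := hv
  have e1 : X v < 1 := by
    by_contra hcon
    push Not at hcon
    nlinarith
  have e2 : a * Y v < 0 := mul_neg_of_pos_of_neg ha h2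
  have e3 : 0 < b * X v := mul_pos hb h1
  have e4 : a * (b * X v - Y v) < a * b := mul_lt_mul_of_pos_left h3 ha
  have e5 : 0 < a * (b * X v) := mul_pos ha e3
  exact ⟨by linarith, h3, by linarith, by nlinarith⟩

theorem inK_of_NW (ha : 0 < a) (hb : 0 < b) (hv : NW X Y a v) : InK X Y a b v := by
  obtain ⟨h1, h2, h3⟩ := hv
  have e1 : Y v < 1 := by
    by_contra hcon
    push Not at hcon
    nlinarith
  have e2 : b * X v < 0 := mul_neg_of_pos_of_neg hb h2
  have e3 : 0 < a * Y v := mul_pos ha h1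
  have e4 : b * (a * Y v - X v) < b * a := mul_lt_mul_of_pos_left h3 hb
  have e5 : 0 < b * (a * Y v) := mul_pos hb e3
  exact ⟨by linarith, by linarith, h3, by nlinarith⟩

theorem inK_of_SW (ha : 0 < a) (hb : 0 < b) (hv : SW X Y a b v) : InK X Y a b v := by
  obtain ⟨h1, h2, h3⟩ := hv
  have e1 : b * X v < 0 := mul_neg_of_pos_of_neg hb h1
  have e2 : a * Y v < 0 := mul_neg_of_pos_of_neg ha h2
  have e3 : -(Y v) < b := by
    by_contra hcon
    push Not at hcon
    nlinarith
  have e4 : -(X v) < a := by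
    by_contra hcon
    push Not at hcon
    nlinarith
  exact ⟨by linarith, by linarith, by linarith, h3⟩

theorem Fre.swap (h : Fre X Y a b κ M v) : Fre Y X b a (fun x => κ x.swap) M v :=
  ⟨h.1.swap, fun σ j hj => h.2.1 (!σ) j hj, fun σ j hj => h.2.2 (!σ) j hj⟩

theorem inR_swap {x y : ℝ} (h : InR X Y κ c r x y) :
    InR Y X (fun x => κ x.swap) r c y x :=
  ⟨h.2.2.1, h.2.2.2, h.1, h.2.1⟩

namespace GDraw

theorem inK_NE (h : GDraw H X Y E F a b κ M) (hv : NE X Y v) : InK X Y a b v :=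
  inK_of_NE h.hk.a_pos h.hk.b_pos hv

theorem inK_SE (h : GDraw H X Y E F a b κ M) (hv : SE X Y b v) : InK X Y a b v :=
  inK_of_SE h.hk.a_pos h.hk.b_pos hv

theorem inK_NW (h : GDraw H X Y E F a b κ M) (hv : NW X Y a v) : InK X Y a b v :=
  inK_of_NW h.hk.a_pos h.hk.b_pos hv

theorem vc (h : GDraw H X Y E F a b κ M) (hc : c < M) :
    VC H X Y b (κ (.X false)) (κ (.Y false)) (κ (.v (.U false c)))
      (κ (.v (.P false (2 * c)))) := by
  obtain ⟨u1, u2, u3⟩ := h.hU false c hc
  obtain ⟨p1, p2, p3⟩ := h.hP0 (2 * c) (by omega)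
  exact
    { XN := h.hk.Xw
      YN := h.hk.Yw
      XS := h.hk.Xw'
      YS := h.hk.Yw'
      NT := h.hg.adj (.xu false c) hc
      TB := h.hg.adj (.up false c) hc
      BS := (h.hg.adj (.yp false (2 * c)) (show 2 * c < 2 * M by omega)).symm
      XT := u1
      YT := u2
      YT1 := by linarith
      XB := (X_U h hc).symm
      YB := p2
      YBb := by have := mul_pos h.hk.b_pos p1; linarith }

theorem hc (h : GDraw H X Y E F a b κ M) (hr : r < M) :
    VC H Y X a (κ (.X true)) (κ (.Y true)) (κ (.v (.U true r)))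
      (κ (.v (.P true (2 * r)))) := by
  obtain ⟨u1, u2, u3⟩ := h.hU true r hr
  obtain ⟨p1, p2, p3⟩ := h.hP1 (2 * r) (by omega)
  exact
    { XN := h.hk.Yu
      YN := h.hk.Xu
      XS := h.hk.Yu'
      YS := h.hk.Xu'
      NT := h.hg.adj (.xu true r) hr
      TB := h.hg.adj (.up true r) hr
      BS := (h.hg.adj (.yp true (2 * r)) (show 2 * r < 2 * M by omega)).symm
      XT := u2
      YT := u1
      YT1 := by linarith
      XB := (Y_U h hr).symm
      YB := p2
      YBb := by have := mul_pos h.hk.a_pos p1; linarith }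

theorem X_le (h : GDraw H X Y E F a b κ M) (hij : i ≤ j) (hj : j < 2 * M) :
    X (κ (.v (.P false i))) ≤ X (κ (.v (.P false j))) := by
  rcases hij.eq_or_lt with rfl | hlt
  · exact le_rfl
  · exact (X_lt h hlt hj).le

/-- a vertex of a rectangle is to the right of the lines number `0, ..., c` and to the left of the
lines number `c + 1, ...` -/
theorem lfC_of_inR (h : GDraw H X Y E F a b κ M) (hc : c + 1 < M) (hr : r + 1 < M)
    (hin : InR X Y κ c r (X v) (Y v)) (hj : j < M) : LfC X Y b κ j v ↔ c < j := by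
  have hT := X_U h hj
  constructor
  · rintro ⟨h1, -, -⟩
    by_contra hcon
    push Not at hcon
    have h2 := X_le h (show 2 * j ≤ 2 * c by omega) (by omega)
    have h3 := hin.1
    rw [hT] at h1
    linarith
  · intro hcj
    obtain ⟨n1, n2, n3⟩ := inR_NE h hc hr hin
    have h2 := X_le h (show 2 * c + 2 ≤ 2 * j by omega) (by omega)
    have h3 := hin.2.1
    have h4 := (GDraw.cross h hj hr).2
    have h5 := Y_U h hr
    have h6 := hin.2.2.2
    have e : 2 * (r + 1) = 2 * r + 2 := by ring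
    rw [e] at h5
    obtain ⟨u1, u2, u3⟩ := h.hU false j hj
    obtain ⟨p1, p2, p3⟩ := h.hP0 (2 * j) (by omega)
    have hv := h.vc hj
    have hX : X v < X (κ (.v (.U false j))) := by rw [hT]; linarith
    have hYv : Y v < Y (κ (.v (.U false j))) := by linarith
    have hY1 : 0 < 1 - Y (κ (.v (.U false j))) := by have := hv.YT1; linarith
    have hB : 0 < b + Y (κ (.v (.P false (2 * j)))) := by have := hv.YBb; linarith
    refine ⟨hX, ?_, ?_⟩
    · have e1 := mul_lt_mul_of_pos_right hX hY1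
      have e2 : X (κ (.v (.U false j))) * (1 - Y (κ (.v (.U false j)))) <
          X (κ (.v (.U false j))) * (1 - Y v) := mul_lt_mul_of_pos_left (by linarith) u1
      linarith
    · have e1 := mul_lt_mul_of_pos_right hX hB
      have e2 : X (κ (.v (.U false j))) * (b + Y (κ (.v (.P false (2 * j))))) <
          X (κ (.v (.U false j))) * (b + Y v) := mul_lt_mul_of_pos_left (by linarith) u1
      linarith

theorem lfR_of_inR (h : GDraw H X Y E F a b κ M) (hc : c + 1 < M) (hr : r + 1 < M)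
    (hin : InR X Y κ c r (X v) (Y v)) (hj : j < M) : LfR X Y a κ j v ↔ r < j :=
  lfC_of_inR (v := v) h.swap hr hc (inR_swap hin) hj

theorem X_P_ne (h : GDraw H X Y E F a b κ M) (hi : i < M) (hj : j < M) (hij : i ≠ j) :
    X (κ (.v (.U false i))) ≠ X (κ (.v (.U false j))) := by
  rw [X_U h hi, X_U h hj]
  rcases lt_or_gt_of_ne hij with hlt | hlt
  · exact (X_lt h (show 2 * i < 2 * j by omega) (by omega)).ne
  · exact (X_lt h (show 2 * j < 2 * i by omega) (by omega)).ne'

/-- two vertical lines are crossed by horizontal edges only -/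
theorem two_C (h : GDraw H X Y E F a b κ M) (hi : i < M) (hj : j < M) (hij : i ≠ j)
    (hp : H.Adj p p') (f : Fre X Y a b κ M p) (f' : Fre X Y a b κ M p')
    (h1 : ¬ (LfC X Y b κ i p ↔ LfC X Y b κ i p')) (h2 : ¬ (LfC X Y b κ j p ↔ LfC X Y b κ j p')) :
    Y p' = Y p :=
  two_V h.hd h.hk.a_pos h.hk.b_pos (h.vc hi) (h.vc hj) (h.X_P_ne hi hj hij) hp f.1 f'.1
    ⟨f.2.1 false i hi, f.2.2 false (2 * i) (by omega), f.2.1 false j hj,
      f.2.2 false (2 * j) (by omega)⟩
    ⟨f'.2.1 false i hi, f'.2.2 false (2 * i) (by omega), f'.2.1 false j hj,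
      f'.2.2 false (2 * j) (by omega)⟩ h1 h2

theorem two_R (h : GDraw H X Y E F a b κ M) (hi : i < M) (hj : j < M) (hij : i ≠ j)
    (hp : H.Adj p p') (f : Fre X Y a b κ M p) (f' : Fre X Y a b κ M p')
    (h1 : ¬ (LfR X Y a κ i p ↔ LfR X Y a κ i p')) (h2 : ¬ (LfR X Y a κ j p ↔ LfR X Y a κ j p')) :
    X p' = X p :=
  two_C h.swap hi hj hij hp f.swap f'.swap h1 h2

/-- horizontal edges do not cross horizontal lines -/
theorem hor_R (h : GDraw H X Y E F a b κ M) (hi : i < M) (hp : H.Adj p p')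
    (f : Fre X Y a b κ M p) (f' : Fre X Y a b κ M p') (hY : Y p' = Y p) :
    LfR X Y a κ i p ↔ LfR X Y a κ i p' :=
  hor_H h.hd h.hk.a_pos h.hk.b_pos (h.hc hi) hp f.1 f'.1
    ⟨f.2.1 true i hi, f.2.2 true (2 * i) (by omega)⟩
    ⟨f'.2.1 true i hi, f'.2.2 true (2 * i) (by omega)⟩ hY

theorem ver_C (h : GDraw H X Y E F a b κ M) (hi : i < M) (hp : H.Adj p p')
    (f : Fre X Y a b κ M p) (f' : Fre X Y a b κ M p') (hX : X p' = X p) :
    LfC X Y b κ i p ↔ LfC X Y b κ i p' :=
  hor_R h.swap hi hp f.swap f'.swap hX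

/-- no edge crosses a vertical line and a horizontal line -/
theorem mix (h : GDraw H X Y E F a b κ M) (hi : i < M) (hj : j < M) (hp : H.Adj p p')
    (f : Fre X Y a b κ M p) (f' : Fre X Y a b κ M p')
    (h1 : ¬ (LfC X Y b κ i p ↔ LfC X Y b κ i p')) : LfR X Y a κ j p ↔ LfR X Y a κ j p' :=
  VH h.hd h.hk (h.vc hi) (h.hc hj) (GDraw.cross h hi hj).1 (GDraw.cross h hi hj).2 hp f.1 f'.1
    ⟨f.2.1 false i hi, f.2.2 false (2 * i) (by omega), f.2.1 true j hj,
      f.2.2 true (2 * j) (by omega)⟩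
    ⟨f'.2.1 false i hi, f'.2.2 false (2 * i) (by omega), f'.2.1 true j hj,
      f'.2.2 true (2 * j) (by omega)⟩ h1

/-- a common neighbour of two vertices of the three cells lies in the open kite, unless both are in
`SE` or both in `NW` -/
theorem common_K (h : GDraw H X Y E F a b κ M) (hl : NE X Y l ∨ SE X Y b l ∨ NW X Y a l)
    (hl' : NE X Y l' ∨ SE X Y b l' ∨ NW X Y a l') (h1 : ¬ (SE X Y b l ∧ SE X Y b l'))
    (h2 : ¬ (NW X Y a l ∧ NW X Y a l')) (hne : l ≠ l') (hq : H.Adj q l) (hq' : H.Adj q l')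
    (n1 : ∀ σ, q ≠ κ (.X σ)) (n2 : ∀ σ, q ≠ κ (.Y σ)) : InK X Y a b q := by
  have ha := h.hk.a_pos
  have hb := h.hk.b_pos
  -- the place of `q` seen from one of the vertices
  have kNE : ∀ z, NE X Y z → H.Adj z q → (0 < X q ∧ 0 < Y q) ∨ InK X Y a b q := by
    intro z hz hzq
    rcases quad_NE h.hd h.hk hzq hz with e | e | e | ⟨-, e⟩ | ⟨-, e⟩
    · exact absurd e (n1 true)
    · exact absurd e (n1 false)
    · exact Or.inl e
    · exact Or.inr (h.inK_SE e)
    · exact Or.inr (h.inK_NW e)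
  have kSE : ∀ z, SE X Y b z → H.Adj z q → (0 < X q ∧ Y q < 0) ∨ InK X Y a b q := by
    intro z hz hzq
    rcases quad_SE h.hd h.hk h.hs hzq hz with e | e | e | ⟨-, e⟩ | ⟨-, e⟩
    · exact absurd e (n1 true)
    · exact absurd e (n2 false)
    · exact Or.inl e
    · exact Or.inr (h.inK_NE e)
    · exact Or.inr (inK_of_SW ha hb e)
  have kNW : ∀ z, NW X Y a z → H.Adj z q → (X q < 0 ∧ 0 < Y q) ∨ InK X Y a b q := by
    intro z hz hzq
    rcases quad_NW h.hd h.hk h.hs hzq hz with e | e | e | ⟨-, e⟩ | ⟨-, e⟩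
    · exact absurd e (n1 false)
    · exact absurd e (n2 true)
    · exact Or.inl e
    · exact Or.inr (h.inK_NE e)
    · exact Or.inr (inK_of_SW ha hb e)
  rcases hl with hl | hl | hl <;> rcases hl' with hl' | hl' | hl'
  · rcases common_NE h.hd h.hk h.hs hl hl' hne hq hq' with e | e | e
    · exact absurd e (n1 true)
    · exact absurd e (n1 false)
    · exact h.inK_NE e
  · rcases kNE l hl hq.symm with e | e
    · rcases kSE l' hl' hq'.symm with e' | e'
      · linarith [e.2, e'.2]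
      · exact e'
    · exact e
  · rcases kNE l hl hq.symm with e | e
    · rcases kNW l' hl' hq'.symm with e' | e'
      · linarith [e.1, e'.1]
      · exact e'
    · exact e
  · rcases kSE l hl hq.symm with e | e
    · rcases kNE l' hl' hq'.symm with e' | e'
      · linarith [e.2, e'.2]
      · exact e'
    · exact e
  · exact absurd ⟨hl, hl'⟩ h1
  · rcases kSE l hl hq.symm with e | e
    · rcases kNW l' hl' hq'.symm with e' | e'
      · linarith [e.1, e'.1]
      · exact e'
    · exact e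
  · rcases kNW l hl hq.symm with e | e
    · rcases kNE l' hl' hq'.symm with e' | e'
      · linarith [e.1, e'.1]
      · exact e'
    · exact e
  · rcases kNW l hl hq.symm with e | e
    · rcases kSE l' hl' hq'.symm with e' | e'
      · linarith [e.1, e'.1]
      · exact e'
    · exact e
  · exact absurd ⟨hl, hl'⟩ h2

end GDraw

end Pool.Agent.Helper74.DG2
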