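import Pool.Agent.Helper18.RAC.Defs

/-!
# Maximal straight-line RAC graphs are connected
-/

set_option autoImplicit false

open Complex

namespace Pool.Agent.Helper18.RAC

variable {V : Type*} {G : SimpleGraph V} {f : V → ℂ}

/-- similarities preserve RAC drawings -/
theorem IsRAC.sim (hf : IsRAC G f) {α : ℂ} (hα : α ≠ 0) (c : ℂ) :
    IsRAC G (fun v => α * f v + c) := by
  refine hf.comp (fun z => α * z + c) (LinearMap.mulLeft ℝ α) ?_ ?_ (Complex.normSq α) ?_
  · intro z w h
    simpa [hα] using h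
  · intro z w
    simp only [LinearMap.mulLeft_apply]
    ring
  · intro z w
    simp only [LinearMap.mulLeft_apply, map_mul]
    rw [show α * z * ((starRingEnd ℂ) α * (starRingEnd ℂ) w) =
      (α * (starRingEnd ℂ) α) * (z * (starRingEnd ℂ) w) by ring, Complex.mul_conj,
      Complex.re_ofReal_mul]

/-- the real parts of the points of a segment -/
theorem re_seg {z u v : ℂ} (h : z ∈ segment ℝ u v) {R : ℝ} (hu : u.re ≤ R) (hv : v.re ≤ R) :
    z.re ≤ R := by
  obtain ⟨t, h0, h1, h2, -⟩ := mem_segment_iff.1 h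
  rw [h2]
  nlinarith

theorem re_seg' {z u v : ℂ} (h : z ∈ segment ℝ u v) {R : ℝ} (hu : R ≤ u.re) (hv : R ≤ v.re) :
    R ≤ z.re := by
  obtain ⟨t, h0, h1, h2, -⟩ := mem_segment_iff.1 h
  rw [h2]
  nlinarith

open scoped Classical in
/-- two drawings side by side, joined by an edge -/
theorem IsRAC.glue {g₁ g₂ : V → ℂ} (h1 : IsRAC G g₁) (h2 : IsRAC G g₂) {A : Set V}
    (hA : ∀ u v, G.Adj u v → (u ∈ A ↔ v ∈ A)) {a b : V} (ha : a ∈ A) (hb : b ∉ A) {R : ℝ}
    (hga : g₁ a = (R : ℂ)) (hgb : g₂ b = ((R + 1 : ℝ) : ℂ))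
    (hlt : ∀ x ∈ A, x ≠ a → (g₁ x).re < R) (hgt : ∀ x, x ∉ A → x ≠ b → R + 1 < (g₂ x).re) :
    IsRAC (G ⊔ SimpleGraph.edge a b) (fun v => if v ∈ A then g₁ v else g₂ v) := by
  set f' : V → ℂ := fun v => if v ∈ A then g₁ v else g₂ v with hf'
  have e1 : ∀ v, v ∈ A → f' v = g₁ v := fun v hv => if_pos hv
  have e2 : ∀ v, v ∉ A → f' v = g₂ v := fun v hv => if_neg hv
  have r1 : ∀ v, v ∈ A → (f' v).re ≤ R := by
    intro v hv
    rw [e1 v hv]
    by_cases h : v = a
    · rw [h, hga]
      simp
    · exact (hlt v hv h).le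
  have r2 : ∀ v, v ∉ A → R + 1 ≤ (f' v).re := by
    intro v hv
    rw [e2 v hv]
    by_cases h : v = b
    · rw [h, hgb]
      simp
    · exact (hgt v hv h).le
  have fa : f' a = (R : ℂ) := by rw [e1 a ha, hga]
  have fb : f' b = ((R + 1 : ℝ) : ℂ) := by rw [e2 b hb, hgb]
  have hadj : ∀ u v, (G ⊔ SimpleGraph.edge a b).Adj u v →
      G.Adj u v ∨ (u = a ∧ v = b) ∨ (u = b ∧ v = a) := by
    intro u v h
    rw [SimpleGraph.sup_adj, SimpleGraph.edge_adj] at h
    rcases h with h | ⟨h, -⟩
    · exact Or.inl h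
    · exact Or.inr h
  -- points of the new edge
  have hab : ∀ z, z ∈ openSegment ℝ (f' a) (f' b) → R < z.re ∧ z.re < R + 1 := by
    intro z hz
    obtain ⟨t, h0, h1, h2, -⟩ := mem_openSegment_iff.1 hz
    rw [fa, fb] at h2
    simp only [ofReal_re] at h2
    rw [h2]
    constructor <;> nlinarith
  have key : ∀ x y : V, G.Adj x y → ∀ z, z ∈ openSegment ℝ (f' x) (f' y) →
      z ∈ openSegment ℝ (f' a) (f' b) → False := by
    intro x y hxy z h3 h4
    obtain ⟨h5, h6⟩ := hab z h4
    have h7 := openSegment_subset_segment _ _ _ h3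
    by_cases hx : x ∈ A
    · have := re_seg h7 (r1 x hx) (r1 y ((hA x y hxy).1 hx))
      linarith
    · have := re_seg' h7 (r2 x hx) (r2 y (fun h => hx ((hA x y hxy).2 h)))
      linarith
  refine ⟨?_, ?_, ?_⟩
  · intro x y hxy
    by_cases hx : x ∈ A <;> by_cases hy : y ∈ A
    · rw [e1 x hx, e1 y hy] at hxy
      exact h1.inj hxy
    · exfalso
      have h3 := r1 x hx
      have h4 := r2 y hy
      rw [hxy] at h3
      linarith
    · exfalso
      have h3 := r1 y hy
      have h4 := r2 x hx
      rw [hxy] at h4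
      linarith
    · rw [e2 x hx, e2 y hy] at hxy
      exact h2.inj hxy
  · intro u v w huv hwu hwv hw
    have main : ∀ w, w ≠ a → w ≠ b → f' w ∉ segment ℝ (f' a) (f' b) := by
      intro w hwa hwb hw
      by_cases hwA : w ∈ A
      · have h3 : (f' w).re < R := by
          rw [e1 w hwA]
          exact hlt w hwA hwa
        have h4 := re_seg' hw (R := R) (by rw [fa]; simp) (by rw [fb]; simp)
        linarith
      · have h3 : R + 1 < (f' w).re := by
          rw [e2 w hwA]
          exact hgt w hwA hwb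
        have h4 := re_seg hw (R := R + 1) (by rw [fa]; simp) (by rw [fb]; simp)
        linarith
    rcases hadj u v huv with h | ⟨rfl, rfl⟩ | ⟨rfl, rfl⟩
    · by_cases hu : u ∈ A
      · have hv := (hA u v h).1 hu
        by_cases hwA : w ∈ A
        · rw [e1 u hu, e1 v hv, e1 w hwA] at hw
          exact h1.vtx u v w h hwu hwv hw
        · have h3 := re_seg hw (r1 u hu) (r1 v hv)
          linarith [r2 w hwA]
      · have hv : v ∉ A := fun h' => hu ((hA u v h).2 h')
        by_cases hwA : w ∈ A
        · have h3 := re_seg' hw (r2 u hu) (r2 v hv)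
          linarith [r1 w hwA]
        · rw [e2 u hu, e2 v hv, e2 w hwA] at hw
          exact h2.vtx u v w h hwu hwv hw
    · exact main w hwu hwv hw
    · rw [segment_symm] at hw
      exact main w hwv hwu hw
  · intro u v x y huv hxy hne z hz hz'
    rcases hadj u v huv with h | h
    · rcases hadj x y hxy with h' | h'
      · by_cases hu : u ∈ A
        · have hv := (hA u v h).1 hu
          by_cases hx : x ∈ A
          · have hy := (hA x y h').1 hx
            rw [e1 u hu, e1 v hv] at hz ⊢
            rw [e1 x hx, e1 y hy] at hz' ⊢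
            exact h1.crs u v x y h h' hne z hz hz'
          · exfalso
            have hy : y ∉ A := fun h'' => hx ((hA x y h').2 h'')
            have h3 := re_seg (openSegment_subset_segment _ _ _ hz) (r1 u hu) (r1 v hv)
            have h4 := re_seg' (openSegment_subset_segment _ _ _ hz') (r2 x hx) (r2 y hy)
            linarith
        · have hv : v ∉ A := fun h'' => hu ((hA u v h).2 h'')
          by_cases hx : x ∈ A
          · exfalso
            have hy := (hA x y h').1 hx
            have h3 := re_seg' (openSegment_subset_segment _ _ _ hz) (r2 u hu) (r2 v hv)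
            have h4 := re_seg (openSegment_subset_segment _ _ _ hz') (r1 x hx) (r1 y hy)
            linarith
          · have hy : y ∉ A := fun h'' => hx ((hA x y h').2 h'')
            rw [e2 u hu, e2 v hv] at hz ⊢
            rw [e2 x hx, e2 y hy] at hz' ⊢
            exact h2.crs u v x y h h' hne z hz hz'
      · exfalso
        rcases h' with ⟨rfl, rfl⟩ | ⟨rfl, rfl⟩
        · exact key u v h z hz hz'
        · rw [openSegment_symm] at hz'
          exact key u v h z hz hz'
    · rcases hadj x y hxy with h' | h'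
      · exfalso
        rcases h with ⟨rfl, rfl⟩ | ⟨rfl, rfl⟩
        · exact key x y h' z hz' hz
        · rw [openSegment_symm] at hz
          exact key x y h' z hz' hz
      · exfalso
        apply hne
        rcases h with ⟨rfl, rfl⟩ | ⟨rfl, rfl⟩ <;> rcases h' with ⟨rfl, rfl⟩ | ⟨rfl, rfl⟩
        · rfl
        · exact Sym2.eq_swap
        · exact Sym2.eq_swap
        · rfl

/-- a point which is farthest from `0` is, after a rotation, the only rightmost point -/
theorem exists_rot {A : Set V} (hfin : A.Finite) (hne : A.Nonempty) (hinj : Function.Injective f) :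
    ∃ a ∈ A, ∃ α : ℂ, α ≠ 0 ∧ ∃ R : ℝ, α * f a = (R : ℂ) ∧
      ∀ x ∈ A, x ≠ a → (α * f x).re < R := by
  obtain ⟨a, ha, hmax⟩ := hfin.exists_maximalFor (fun x => ‖f x‖) A hne
  have hmax' : ∀ x ∈ A, ‖f x‖ ≤ ‖f a‖ := by
    intro x hx
    by_contra hlt
    rw [not_le] at hlt
    exact absurd (hmax hx hlt.le) (not_le.2 hlt)
  refine ⟨a, ha, ?_⟩
  by_cases h0 : f a = 0
  · refine ⟨1, one_ne_zero, 0, by simp [h0], ?_⟩
    intro x hx hxa
    exfalso
    have h1 := hmax' x hx
    rw [h0, norm_zero] at h1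
    have h2 : f x = 0 := norm_le_zero_iff.1 h1
    exact hxa (hinj (h2.trans h0.symm))
  · refine ⟨(starRingEnd ℂ) (f a), ?_, Complex.normSq (f a), ?_, ?_⟩
    · simpa using h0
    · rw [mul_comm, Complex.mul_conj]
    · intro x hx hxa
      have h1 := hmax' x hx
      have h2 : ‖f x‖ ^ 2 ≤ ‖f a‖ ^ 2 := by
        gcongr
      rw [← Complex.normSq_eq_norm_sq, ← Complex.normSq_eq_norm_sq, Complex.normSq_apply,
        Complex.normSq_apply] at h2
      have h3 : f x ≠ f a := fun h => hxa (hinj h)
      have h4 : 0 < ((f x).re - (f a).re) ^ 2 + ((f x).im - (f a).im) ^ 2 := by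
        by_contra hcon
        have h5 : ((f x).re - (f a).re) ^ 2 = 0 := by
          nlinarith [sq_nonneg ((f x).re - (f a).re), sq_nonneg ((f x).im - (f a).im)]
        have h6 : ((f x).im - (f a).im) ^ 2 = 0 := by
          nlinarith [sq_nonneg ((f x).re - (f a).re), sq_nonneg ((f x).im - (f a).im)]
        apply h3
        apply Complex.ext
        · exact sub_eq_zero.1 (pow_eq_zero_iff (two_ne_zero)|>.1 h5)
        · exact sub_eq_zero.1 (pow_eq_zero_iff (two_ne_zero)|>.1 h6)
      rw [Complex.normSq_apply]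
      simp only [Complex.mul_re, Complex.conj_re, Complex.conj_im]
      nlinarith

/-- a maximal RAC graph is connected -/
theorem MaxRAC.preconnected [Finite V] (hG : MaxRAC G) : G.Preconnected := by
  classical
  intro u v
  by_contra hcon
  obtain ⟨f, hf⟩ := hG.1
  set A : Set V := {x | G.Reachable u x} with hAdef
  have hA : ∀ x y, G.Adj x y → (x ∈ A ↔ y ∈ A) := fun x y hxy =>
    ⟨fun h => h.trans hxy.reachable, fun h => h.trans hxy.symm.reachable⟩
  obtain ⟨a, ha, α, hα, R, hR, hlt⟩ := exists_rot (A := A) (Set.toFinite _)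
    ⟨u, SimpleGraph.Reachable.refl u⟩ hf.inj
  obtain ⟨b, hb, β, hβ, R', hR', hlt'⟩ := exists_rot (A := Aᶜ) (Set.toFinite _)
    ⟨v, hcon⟩ hf.inj
  have hne : a ≠ b := fun h => hb (h ▸ ha)
  have hnadj : ¬ G.Adj a b := fun h => hb ((hA a b h).1 ha)
  refine hG.2 a b hne hnadj ⟨_, IsRAC.glue (g₁ := fun v => α * f v + 0)
    (g₂ := fun v => -β * f v + ((R + R' + 1 : ℝ) : ℂ)) (hf.sim hα 0)
    (hf.sim (neg_ne_zero.2 hβ) _) hA ha hb (R := R) ?_ ?_ ?_ ?_⟩
  · simp only [add_zero]
    exact hR
  · simp only [neg_mul]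
    rw [hR']
    push_cast
    ring
  · intro x hx hxa
    simp only [add_zero]
    exact hlt x hx hxa
  · intro x hx hxb
    have := hlt' x hx hxb
    simp only [neg_mul, Complex.add_re, Complex.neg_re, Complex.ofReal_re]
    linarith

/-- a maximal RAC graph with `n` vertices has at least `n - 1` edges -/
theorem MaxRAC.card_le {n : ℕ} {G : SimpleGraph (Fin n)} (hG : MaxRAC G) :
    n ≤ G.edgeSet.ncard + 1 := by
  rcases Nat.eq_zero_or_pos n with h | h
  · omega
  · have : Nonempty (Fin n) := ⟨⟨0, h⟩⟩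
    have h1 : G.Connected := ⟨hG.preconnected⟩
    have h2 := h1.card_vert_le_card_edgeSet_add_one
    rw [Nat.card_fin] at h2
    exact h2

end Pool.Agent.Helper18.RAC
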