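import Pool.Agent.Helper84.DG2.Win3
import Pool.Agent.Helper18.DG.Win2
import Pool.Agent.Helper74.DG2.Part3

/-!
# Dark islands: from a window to the adapted coordinates of the middle kite
-/

set_option autoImplicit false

namespace Pool.Agent.Helper74.DG2

open Pool.Agent.Helper18.RAC Complex
open Pool.Agent.Helper82.DG (NE SE NW SW Fr CoreH)

variable {V : Type*}

theorem gdraw_of_frame {H : SimpleGraph V} {f : V → ℂ} {a b : V} {w c : ℤ → V} {q : ℤ → ℂ}
    (h : WinR H f a b w c q 20) {κ : GX → V} {M : ℕ} (hg : HasGrid H κ M) {δ : ℤ}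
    (hδ : δ = 1 ∨ δ = -1) (hE : κ (.X true) = w δ) (hW : κ (.Y true) = w (-δ))
    (hS : κ (.Y false) = w 0)
    (hF : κ (.X false) = c 0 ∧
      (∀ σ i, i < M → Cell f w c q 0 δ true (f (κ (.v (.U σ i))))) ∧
      (∀ j, j < 2 * M → Cell f w c q 0 δ false (f (κ (.v (.P false j))))) ∧
      (∀ j ε, j + 1 < 2 * M → Cell f w c q 0 δ false (f (κ (.v (.C false j ε))))) ∧
      (∀ j, j < 2 * M → Cell f w c q 0 (-δ) true (f (κ (.v (.P true j))))) ∧
      (∀ j ε, j + 1 < 2 * M → Cell f w c q 0 (-δ) true (f (κ (.v (.C true j ε)))))) :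
    ∃ (X Y : ℂ → ℝ) (E F a' b' : ℝ), Fr X Y ∧
      GDraw H (fun v => X (f v)) (fun v => Y (f v)) E F a' b' κ M ∧
      ∀ v y, (NE (fun v => X (f v)) (fun v => Y (f v)) v ∨
          SE (fun v => X (f v)) (fun v => Y (f v)) b' v ∨
          NW (fun v => X (f v)) (fun v => Y (f v)) a' v) →
        H.Adj v y → CoreH H a b y → Cor κ y := by
  obtain ⟨hc0, hU, hP0, hC0, hP1, hC1⟩ := hF
  have e0 : (0 : ℤ) + δ = δ := zero_add δ
  have e1 : (0 : ℤ) - δ = -δ := zero_sub δ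
  have e2 : (0 : ℤ) + -δ = -δ := zero_add _
  have hδ' : -δ = 1 ∨ -δ = -1 := by omega
  have hk : Kite H f (κ (.X true)) (κ (.Y true)) (κ (.X false)) (κ (.Y false)) (q 0) := by
    have := h.ck (s := 0) hδ true (by norm_num) (by norm_num)
    rw [e0, e1] at this
    rw [hE, hW, hS, hc0]
    exact this
  obtain ⟨X, Y, E, F, a', b', hd, hKN, hNE, hSE, hNW, hdec, hun, hDt⟩ := hk.coords h.rac
  have cNE : ∀ z, Cell f w c q 0 δ true z ↔ 0 < X z ∧ 0 < Y z ∧ X z + Y z < 1 := by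
    intro z
    rw [← hNE z, hE, hc0]
    unfold Cell
    rw [e0]
    rfl
  have cSE : ∀ z, Cell f w c q 0 δ false z ↔ 0 < X z ∧ Y z < 0 ∧ b' * X z - Y z < b' := by
    intro z
    rw [← hSE z, hE, hS]
    unfold Cell
    rw [e0]
    rfl
  have cNW : ∀ z, Cell f w c q 0 (-δ) true z ↔ 0 < Y z ∧ X z < 0 ∧ a' * Y z - X z < a' := by
    intro z
    rw [← hNW z, hW, hc0]
    unfold Cell
    rw [e2]
    exact ⟨fun hh => hh.symm, fun hh => hh.symm⟩
  refine ⟨X, Y, E, F, a', b', Pool.Agent.Helper82.DG.fr_of_coords hdec hun hDt, ?_, ?_⟩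
  · exact
      { hd := hd
        hk := hKN
        hs := hk.u'w'
        hg := hg
        hU := fun σ i hi => (cNE _).1 (hU σ i hi)
        hP0 := fun j hj => (cSE _).1 (hP0 j hj)
        hC0 := fun j ε hj => (cSE _).1 (hC0 j ε hj)
        hP1 := fun j hj => (cNW _).1 (hP1 j hj)
        hC1 := fun j ε hj => (cNW _).1 (hC1 j ε hj) }
  · intro v y hv hvy hy
    have key : ∀ (δ₁ : ℤ) (k : Bool), (δ₁ = 1 ∨ δ₁ = -1) → Cell f w c q 0 δ₁ k (f v) →
        y = w δ₁ ∨ y = cond k (c 0) (w 0) := by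
      intro δ₁ k hδ₁ hcell
      rcases h.step hδ₁ (by norm_num) (by norm_num) hvy hcell with h3 | h3 | ⟨s', δ', k', h3, h4⟩
      · left
        rw [h3, zero_add]
      · exact Or.inr h3
      · exfalso
        have hb := h3.bd hδ₁
        exact h.no_core (h3.pm hδ₁) (by omega) (by omega) hy h4
    rcases hv with hv | hv | hv
    · rcases key δ true hδ ((cNE _).2 hv) with h3 | h3
      · exact Or.inr (Or.inl (by rw [h3, hE]))
      · exact Or.inl (by rw [h3, hc0]; rfl)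
    · rcases key δ false hδ ((cSE _).2 hv) with h3 | h3
      · exact Or.inr (Or.inl (by rw [h3, hE]))
      · exact Or.inr (Or.inr (Or.inl (by rw [h3, hS]; rfl)))
    · rcases key (-δ) true hδ' ((cNW _).2 hv) with h3 | h3
      · exact Or.inr (Or.inr (Or.inr (by rw [h3, hW])))
      · exact Or.inl (by rw [h3, hc0]; rfl)

theorem win_gdraw {H : SimpleGraph V} {f : V → ℂ} {a b : V} {w c : ℤ → V} {q : ℤ → ℂ}
    (h : WinR H f a b w c q 20) {κ : GX → V} {M : ℕ} (hg : HasGrid H κ M) {δ : ℤ}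
    (hδ : δ = 1 ∨ δ = -1) (hE : κ (.X true) = w δ) (hW : κ (.Y true) = w (-δ))
    (hS : κ (.Y false) = w 0) (hN : κ (.X false) = a ∨ κ (.X false) = b)
    (winj : ∀ s s', -20 ≤ s → s ≤ 20 → -20 ≤ s' → s' ≤ 20 → w s = w s' → s = s')
    (hnc : ∀ x : GN, x.ok M → κ (.v x) ≠ a ∧ κ (.v x) ≠ b ∧
      ∀ s, -20 ≤ s → s ≤ 20 → κ (.v x) ≠ w s) :
    ∃ (X Y : ℂ → ℝ) (E F a' b' : ℝ), Fr X Y ∧
      GDraw H (fun v => X (f v)) (fun v => Y (f v)) E F a' b' κ M ∧
      ∀ v y, (NE (fun v => X (f v)) (fun v => Y (f v)) v ∨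
          SE (fun v => X (f v)) (fun v => Y (f v)) b' v ∨
          NW (fun v => X (f v)) (fun v => Y (f v)) a' v) →
        H.Adj v y → CoreH H a b y → Cor κ y :=
  gdraw_of_frame h hg hδ hE hW hS (frame_of_win h hg hδ hE hW hS hN winj hnc)

end Pool.Agent.Helper74.DG2
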